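import Pool.Agent.Helper20.NS5.Goals

/-!
MP_c578c8_lc, cell C5 (NoSparseHardSet), packet NS5-UQS.
-/

namespace Pool.Agent.Helper98.NS5

open Pool.Agent.Helper65.LinSpace hiding num_pos log_num exists_num pre
open Pool.Agent.Helper78.Avg Finset
open Pool.Agent.Helper20.NS5

theorem pow_le_num (w : List Bool) : 2 ^ w.length ≤ num w := by
  have h := Nat.pow_log_le_self 2 (num_pos w).ne'
  rwa [log_num] at h

theorem num_lt (w : List Bool) : num w < 2 ^ (w.length + 1) := by
  have h := Nat.lt_pow_succ_log_self (b := 2) (by norm_num) (num w)
  rwa [log_num] at h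

theorem num_app (x y : List Bool) :
    num (x ++ y) = num x - 2 ^ x.length + 2 ^ x.length * num y := by
  rw [num_append, catN, log_num]

theorem num_div (x y : List Bool) (l : ℕ) (hl : x.length = l) :
    num (x ++ y) / 2 ^ l = num y := by
  subst hl
  have h1 := pow_le_num x
  have h2 := num_lt x
  rw [pow_succ] at h2
  rw [num_app, Nat.add_mul_div_left _ _ (by positivity), Nat.div_eq_of_lt (by omega), zero_add]

theorem num_mod (x y : List Bool) (l : ℕ) (hl : x.length = l) :
    num (x ++ y) % 2 ^ l = num x - 2 ^ l := by
  subst hl
  have h1 := pow_le_num x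
  have h2 := num_lt x
  rw [pow_succ] at h2
  rw [num_app, Nat.add_mul_mod_self_left, Nat.mod_eq_of_lt (by omega)]

theorem num_rep (i : ℕ) (w : List Bool) :
    num (List.replicate i true ++ w) + 1 = 2 ^ i * (num w + 1) := by
  induction i with
  | zero => simp
  | succ i ih =>
    have h1 : num (List.replicate (i + 1) true ++ w) =
        1 + 2 * num (List.replicate i true ++ w) := rfl
    rw [h1, pow_succ]
    have h2 : 1 + 2 * num (List.replicate i true ++ w) + 1 =
        2 * (num (List.replicate i true ++ w) + 1) := by ring
    rw [h2, ih]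
    ring

theorem ans_words (i : ℕ) (b α : List Bool) (J : Finset ℕ) (hb : b.length = i) :
    ∃ a : List Bool, a.length = α.length + 3 * i + 2 ∧ tz (num a) = i ∧
      (∀ t ≤ i, jb (num a) t = 1 ↔ t ∈ J) ∧ ∀ t ≤ i, pre (num a) t = num (α ++ b.take t) := by
  classical
  set JJ : List Bool := (List.range (i + 1)).map (fun t => decide (t ∈ J)) with hJJ
  have hJl : JJ.length = i + 1 := by simp [hJJ]
  set a : List Bool := List.replicate i true ++ ([false] ++ (JJ ++ (b ++ α))) with ha
  have hal : a.length = α.length + 3 * i + 2 := by
    simp only [ha, List.length_append, List.length_replicate, hJl, hb, List.length_cons,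
      List.length_nil]
    ring
  have htz : tz (num a) = i := by
    unfold tz
    rw [log_num]
    have h1 : ∀ j ∈ range (a.length + 1),
        ifz ((num a + 1) % 2 ^ (min j a.length + 1)) 1 0 = if j < i then 1 else 0 := by
      intro j hj
      rw [mem_range] at hj
      rw [min_eq_left (by omega)]
      unfold ifz
      have h2 : (num a + 1) % 2 ^ (j + 1) = 0 ↔ j < i := by
        rw [← Nat.dvd_iff_mod_eq_zero, ha, num_rep]
        have h3 : num ([false] ++ (JJ ++ (b ++ α))) + 1 = 2 * num (JJ ++ (b ++ α)) + 1 := by
          show false.toNat + 2 * num (JJ ++ (b ++ α)) + 1 = _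
          simp
        rw [h3]
        constructor
        · intro h4
          by_contra h5
          have h6 : 2 ^ i * 2 ∣ 2 ^ i * (2 * num (JJ ++ (b ++ α)) + 1) := by
            refine dvd_trans ?_ h4
            rw [← pow_succ]
            exact pow_dvd_pow 2 (by omega)
          have h7 := Nat.dvd_of_mul_dvd_mul_left (by positivity) h6
          omega
        · intro h4
          exact dvd_mul_of_dvd_left (pow_dvd_pow 2 (by omega)) _
      by_cases h4 : j < i
      · rw [if_pos (h2.2 h4), if_pos h4]
      · rw [if_neg (fun h => h4 (h2.1 h)), if_neg h4]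
    rw [sum_congr rfl h1, sum_boole]
    have h5 : (range (a.length + 1)).filter (fun j => j < i) = range i := by
      ext j
      simp only [mem_filter, mem_range]
      omega
    rw [h5, card_range]
    rfl
  refine ⟨a, hal, htz, ?_, ?_⟩
  · intro t ht
    unfold jb
    rw [htz, min_eq_left ht]
    have h1 : a = (List.replicate i true ++ [false] ++ JJ.take t) ++ (JJ.drop t ++ (b ++ α)) := by
      rw [ha]
      simp only [List.append_assoc]
      rw [← List.append_assoc (JJ.take t), List.take_append_drop]
    have h2 : (List.replicate i true ++ [false] ++ JJ.take t).length = i + 1 + t := by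
      simp only [List.length_append, List.length_replicate, List.length_cons, List.length_nil,
        List.length_take, hJl]
      omega
    rw [h1, num_div _ _ _ h2]
    have h3 : t < JJ.length := by omega
    rw [List.drop_eq_getElem_cons h3]
    have h4 : JJ[t] = decide (t ∈ J) := by simp [hJJ]
    rw [h4]
    show ((decide (t ∈ J)).toNat + 2 * _) % 2 = 1 ↔ _
    rw [Nat.add_mul_mod_self_left]
    by_cases h5 : t ∈ J <;> simp [h5]
  · intro t ht
    unfold pre
    rw [htz, min_eq_left ht]
    have h1 : num a / 2 ^ (3 * i + 2) = num α := by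
      have h2 : a = (List.replicate i true ++ [false] ++ JJ ++ b) ++ α := by
        rw [ha]
        simp only [List.append_assoc]
      rw [h2]
      apply num_div
      simp only [List.length_append, List.length_replicate, List.length_cons, List.length_nil,
        hJl, hb]
      omega
    have h3 : num a / 2 ^ (2 * i + 2) = num (b ++ α) := by
      have h2 : a = (List.replicate i true ++ [false] ++ JJ) ++ (b ++ α) := by
        rw [ha]
        simp only [List.append_assoc]
      rw [h2]
      apply num_div
      simp only [List.length_append, List.length_replicate, List.length_cons, List.length_nil,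
        hJl]
      omega
    have h4 : (b.take t).length = t := by
      rw [List.length_take]; omega
    have h5 : b ++ α = b.take t ++ (b.drop t ++ α) := by
      rw [← List.append_assoc, List.take_append_drop]
    have h6 := pow_le_num (b.take t)
    rw [h4] at h6
    rw [h1, h3, h5, num_mod _ _ _ h4, num_append, Nat.add_sub_cancel' h6]

theorem bt_le (acc : ℕ → ℕ → ℕ → ℕ → ℕ) (N : ℕ → ℕ) (c n e a z t v : ℕ) :
    bt acc N c n e a z t v ≤ 1 := by
  unfold bt lt01
  split_ifs <;> omega

theorem jb_le (a t : ℕ) : jb a t ≤ 1 := by
  unfold jb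
  omega

theorem eq_iff (acc : ℕ → ℕ → ℕ → ℕ → ℕ) (N : ℕ → ℕ) (c n e a z z' : ℕ) :
    EQ acc N c n e a z z' = 0 ↔ QV acc N c n e a z = QV acc N c n e a z' := by
  have h1 : EQ acc N c n e a z z' = 0 ↔ ∀ t, t ≤ tz a ∧ jb a t = 1 → ∀ v < 2 ^ (c * n),
      bt acc N c n e a z t v = bt acc N c n e a z' t v := by
    unfold EQ
    rw [sum_eq_zero_iff]
    constructor
    · intro h t ht v hv
      have h2 := h t (mem_range.2 (by omega))
      rw [ht.2, one_mul, sum_eq_zero_iff] at h2
      have h3 := h2 v (mem_range.2 hv)
      have h4 := bt_le acc N c n e a z t v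
      have h5 := bt_le acc N c n e a z' t v
      omega
    · intro h t ht
      rw [mem_range] at ht
      have h2 := jb_le a t
      rcases Nat.eq_zero_or_pos (jb a t) with h3 | h3
      · rw [h3, zero_mul]
      · rw [mul_eq_zero]
        right
        rw [sum_eq_zero_iff]
        intro v hv
        rw [mem_range] at hv
        rw [h t ⟨by omega, by omega⟩ v hv]
        omega
  rw [h1]
  constructor
  · intro h
    funext t
    unfold QV
    by_cases ht : t ≤ tz a ∧ jb a t = 1
    · rw [if_pos ht, if_pos ht]
      congr 1
      ext v
      simp only [Set.mem_ofPred_eq]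
      refine and_congr_right fun hv => ?_
      rw [h t ht]
      have h2 := pow_le_num v
      have h3 := num_lt v
      rw [pow_succ] at h3
      rw [hv] at h2 h3
      omega
    · rw [if_neg ht, if_neg ht]
  · intro h t ht v hv
    have h2 := congrFun h t
    unfold QV at h2
    rw [if_pos ht, if_pos ht] at h2
    have h3 := Option.some.inj h2
    obtain ⟨w, hw⟩ := exists_num (y := 2 ^ (c * n) + v) (by positivity)
    have hwl : w.length = c * n := by
      rw [← log_num, hw]
      rw [Nat.log_eq_iff (Or.inr ⟨by norm_num, by positivity⟩)]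
      constructor
      · omega
      · rw [pow_succ]; omega
    have h4 : w ∈ {v | v.length = c * n ∧ bt acc N c n e a z t (num v - 2 ^ (c * n)) ≠ 0} ↔
        w ∈ {v | v.length = c * n ∧ bt acc N c n e a z' t (num v - 2 ^ (c * n)) ≠ 0} := by
      rw [h3]
    simp only [Set.mem_ofPred_eq, hwl, true_and, hw, Nat.add_sub_cancel_left] at h4
    have h5 := bt_le acc N c n e a z t v
    have h6 := bt_le acc N c n e a z' t v
    omega

/-- Packet NS5-UQS. -/
theorem uqs : UQS_stmt :=
  ⟨fun acc N c n e a z z' => eq_iff acc N c n e a z z', fun i b α J hb => ans_words i b α J hb⟩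

end Pool.Agent.Helper98.NS5
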